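import Mathlib

namespace Pool.Agent.H.MP_4681e4_al

open Function

def Slender {G : Type} [Group G] (C : Subgroup G) : Prop := ∀ K : Subgroup G, K ≤ C → K.FG

def IsAmalgam {G : Type} [Group G] (A B C : Subgroup G) : Prop :=
  ∃ h : ∀ i : Bool, C ≤ cond i A B,
    Function.Bijective (Monoid.PushoutI.lift (φ := fun i => Subgroup.inclusion (h i))
      (fun i => (cond i A B).subtype) C.subtype (fun _ => rfl))

def IsHNN {G : Type} [Group G] (C : Subgroup G) : Prop :=
  ∃ (H : Type) (_ : Group H) (P Q : Subgroup H) (φ : P ≃* Q) (e : HNNExtension H P Q φ ≃* G),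
    P.map (e.toMonoidHom.comp HNNExtension.of) = C

variable {G : Type} [Group G]

theorem amalgam_of_univ (A B C : Subgroup G) (hA : C ≤ A) (hB : C ≤ B) (hgen : A ⊔ B = ⊤)
    (hu : ∀ (K : Type) [Group K] (f : A →* K) (g : B →* K),
      (∀ c (hc : c ∈ C), f ⟨c, hA hc⟩ = g ⟨c, hB hc⟩) →
      ∃ φ : G →* K, (∀ a : A, φ a = f a) ∧ ∀ b : B, φ b = g b) : IsAmalgam A B C := by
  have h : ∀ i : Bool, C ≤ cond i A B := fun i => by cases i <;> assumption
  refine ⟨h, ?_, ?_⟩
  · obtain ⟨φ, h1, h2⟩ := hu (Monoid.PushoutI (fun i => Subgroup.inclusion (h i)))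
      (Monoid.PushoutI.of (φ := fun i => Subgroup.inclusion (h i)) true)
      (Monoid.PushoutI.of (φ := fun i => Subgroup.inclusion (h i)) false) (by
        intro c hc
        have e1 := Monoid.PushoutI.of_apply_eq_base (fun i => Subgroup.inclusion (h i)) true ⟨c, hc⟩
        have e2 := Monoid.PushoutI.of_apply_eq_base (fun i => Subgroup.inclusion (h i)) false ⟨c, hc⟩
        exact e1.trans e2.symm)
    have key : φ.comp (Monoid.PushoutI.lift (φ := fun i => Subgroup.inclusion (h i))
      (fun i => (cond i A B).subtype) C.subtype (fun _ => rfl)) = MonoidHom.id _ := by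
      apply Monoid.PushoutI.hom_ext_nonempty
      intro i
      ext x
      simp only [MonoidHom.comp_apply, Monoid.PushoutI.lift_of, MonoidHom.id_apply]
      cases i
      · exact h2 x
      · exact h1 x
    intro x y hxy
    have := congrArg φ hxy
    have hx := DFunLike.congr_fun key x
    have hy := DFunLike.congr_fun key y
    simp only [MonoidHom.comp_apply, MonoidHom.id_apply] at hx hy
    rw [hx, hy] at this
    exact this
  · rw [← MonoidHom.range_eq_top, eq_top_iff, ← hgen, sup_le_iff]
    constructor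
    · intro a ha
      exact ⟨Monoid.PushoutI.of (φ := fun i => Subgroup.inclusion (h i)) true ⟨a, ha⟩, by
        rw [Monoid.PushoutI.lift_of]; rfl⟩
    · intro a ha
      exact ⟨Monoid.PushoutI.of (φ := fun i => Subgroup.inclusion (h i)) false ⟨a, ha⟩, by
        rw [Monoid.PushoutI.lift_of]; rfl⟩

theorem univ_of_amalgam {A B C : Subgroup G} (h : IsAmalgam A B C) {K : Type} [Group K]
    (f : A →* K) (hf : ∀ a : A, (a : G) ∈ C → f a = 1) :
    ∃ φ : G →* K, ∀ a : A, φ a = f a := by
  obtain ⟨h, hb⟩ := h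
  let e := MulEquiv.ofBijective _ hb
  let F : ∀ i : Bool, (cond i A B : Subgroup G) →* K := fun i =>
    match i with
    | true => f
    | false => 1
  let L := Monoid.PushoutI.lift (φ := fun i => Subgroup.inclusion (h i)) F 1 (by
    intro i
    cases i
    · rfl
    · ext x
      exact hf _ x.2)
  refine ⟨L.comp e.symm.toMonoidHom, fun a => ?_⟩
  have : e.symm a = Monoid.PushoutI.of (φ := fun i => Subgroup.inclusion (h i)) true a := by
    rw [MulEquiv.symm_apply_eq]
    simp only [e, MulEquiv.ofBijective_apply]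
    rw [Monoid.PushoutI.lift_of]; rfl
  show L (e.symm a) = f a
  rw [this]
  exact Monoid.PushoutI.lift_of _ _ _ _

theorem hnn_of_univ (B C : Subgroup G) (τ : G) (hB : C ≤ B)
    (hτ : ∀ c ∈ C, τ * c * τ⁻¹ ∈ B) (hgen : B ⊔ Subgroup.zpowers τ = ⊤)
    (hu : ∀ (K : Type) [Group K] (f : B →* K) (k : K),
      (∀ c (hc : c ∈ C), k * f ⟨c, hB hc⟩ = f ⟨τ * c * τ⁻¹, hτ c hc⟩ * k) →
      ∃ φ : G →* K, (∀ b : B, φ b = f b) ∧ φ τ = k) : IsHNN C := by
  let P : Subgroup B := C.subgroupOf B
  let Q : Subgroup B := (C.map (MulAut.conj τ).toMonoidHom).subgroupOf B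
  let φ : P ≃* Q :=
    { toFun := fun p => ⟨⟨τ * p.1.1 * τ⁻¹, hτ _ p.2⟩, ⟨p.1.1, p.2, rfl⟩⟩
      invFun := fun q => ⟨⟨τ⁻¹ * q.1.1 * τ, hB (by
          obtain ⟨c, hc, e⟩ := q.2
          have : τ⁻¹ * q.1.1 * τ = c := by
            have e' : τ * c * τ⁻¹ = q.1.1 := e
            rw [← e']; group
          rw [this]; exact hc)⟩, by
          obtain ⟨c, hc, e⟩ := q.2
          have : τ⁻¹ * q.1.1 * τ = c := by
            have e' : τ * c * τ⁻¹ = q.1.1 := e
            rw [← e']; group
          show τ⁻¹ * q.1.1 * τ ∈ C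
          rw [this]; exact hc⟩
      left_inv := fun p => by
        apply Subtype.ext; apply Subtype.ext
        show τ⁻¹ * (τ * p.1.1 * τ⁻¹) * τ = p.1.1
        group
      right_inv := fun q => by
        apply Subtype.ext; apply Subtype.ext
        show τ * (τ⁻¹ * q.1.1 * τ) * τ⁻¹ = q.1.1
        group
      map_mul' := fun p q => by
        apply Subtype.ext; apply Subtype.ext
        show τ * (p.1.1 * q.1.1) * τ⁻¹ = τ * p.1.1 * τ⁻¹ * (τ * q.1.1 * τ⁻¹)
        group }
  let L : HNNExtension B P Q φ →* G := HNNExtension.lift B.subtype τ (by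
    intro p
    show τ * p.1.1 = τ * p.1.1 * τ⁻¹ * τ
    group)
  obtain ⟨ψ, h1, h2⟩ := hu (HNNExtension B P Q φ) HNNExtension.of HNNExtension.t (by
    intro c hc
    exact HNNExtension.t_mul_of (φ := φ) ⟨⟨c, hB hc⟩, hc⟩)
  have key : ψ.comp L = MonoidHom.id _ := by
    apply HNNExtension.hom_ext
    · ext x
      simp only [MonoidHom.comp_apply, L, HNNExtension.lift_of, MonoidHom.id_apply]
      exact h1 x
    · simp only [MonoidHom.comp_apply, L, HNNExtension.lift_t, MonoidHom.id_apply]
      exact h2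
  have hinj : Injective L := by
    intro x y hxy
    have := congrArg ψ hxy
    have hx := DFunLike.congr_fun key x
    have hy := DFunLike.congr_fun key y
    simp only [MonoidHom.comp_apply, MonoidHom.id_apply] at hx hy
    rw [hx, hy] at this
    exact this
  have hsurj : Surjective L := by
    rw [← MonoidHom.range_eq_top, eq_top_iff, ← hgen, sup_le_iff]
    constructor
    · intro b hb
      exact ⟨HNNExtension.of ⟨b, hb⟩, by simp [L]⟩
    · rw [Subgroup.zpowers_le]
      exact ⟨HNNExtension.t, by simp [L]⟩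
  refine ⟨B, inferInstance, P, Q, φ, MulEquiv.ofBijective L ⟨hinj, hsurj⟩, ?_⟩
  have : (MulEquiv.ofBijective L ⟨hinj, hsurj⟩).toMonoidHom.comp HNNExtension.of = B.subtype := by
    ext x
    show L (HNNExtension.of x) = x
    simp [L]
  rw [this, Subgroup.subgroupOf_map_subtype, inf_eq_left]
  exact hB

abbrev Z2 := Multiplicative (ZMod 2)

def jj : Z2 →* DihedralGroup 4 where
  toFun x := if x = 1 then 1 else DihedralGroup.sr 1
  map_one' := by decide
  map_mul' := by decide

def al : DihedralGroup 4 →* Z2 where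
  toFun x := match x with
    | DihedralGroup.r i => Multiplicative.ofAdd (i.val : ZMod 2)
    | DihedralGroup.sr i => Multiplicative.ofAdd (i.val : ZMod 2)
  map_one' := by decide
  map_mul' := by decide

def be : DihedralGroup 4 →* Z2 where
  toFun x := match x with
    | DihedralGroup.r i => Multiplicative.ofAdd (i.val : ZMod 2)
    | DihedralGroup.sr i => Multiplicative.ofAdd ((i.val : ZMod 2) + 1)
  map_one' := by decide
  map_mul' := by decide

theorem al_jj : ∀ x, al (jj x) = x := by decide
theorem be_jj : ∀ x, be (jj x) = 1 := by decide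
theorem noncomm : ∀ x y : DihedralGroup 4, al x ≠ 1 → al y = 1 → be y ≠ 1 → x * y ≠ y * x := by
  decide

theorem not_hnn (C : Subgroup G) (w : G →* Z2) (s τ : G) (hs : w s ≠ 1) (hτ : w τ = 1)
    (hc : s * τ = τ * s) (hC : ∀ c ∈ C, w c = 1)
    (hZ : ∀ (χ : G →* Multiplicative ℤ) (g : G), χ g ∈ Subgroup.zpowers (χ τ)) : ¬ IsHNN C := by
  rintro ⟨H, _, P, Q, φ, e, hP⟩
  let χ' : HNNExtension H P Q φ →* Multiplicative ℤ :=
    HNNExtension.lift 1 (Multiplicative.ofAdd 1) (by intro a; simp)
  let w' : HNNExtension H P Q φ →* Z2 := w.comp e.toMonoidHom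
  have hP1 : ∀ p : P, w' (HNNExtension.of p.1) = 1 := by
    intro p
    apply hC
    rw [← hP]
    exact ⟨p.1, p.2, rfl⟩
  have hQ1 : ∀ p : P, w' (HNNExtension.of (φ p).1) = 1 := by
    intro p
    have := congrArg w' (HNNExtension.t_mul_of (φ := φ) p)
    rw [map_mul, map_mul, hP1, mul_one] at this
    exact (mul_eq_right.mp this.symm)
  let ψ : HNNExtension H P Q φ →* DihedralGroup 4 :=
    HNNExtension.lift (jj.comp (w'.comp HNNExtension.of))
      (DihedralGroup.sr 0 * jj (w' HNNExtension.t)) (by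
        intro p
        simp only [MonoidHom.comp_apply, hP1, hQ1, map_one, mul_one, one_mul])
  have h1 : al.comp ψ = w' := by
    apply HNNExtension.hom_ext
    · ext x
      simp only [MonoidHom.comp_apply, ψ, HNNExtension.lift_of, al_jj]
    · simp only [MonoidHom.comp_apply, ψ, HNNExtension.lift_t, map_mul, al_jj]
      have : al (DihedralGroup.sr 0) = 1 := by decide
      rw [this, one_mul]
  let red : Multiplicative ℤ →* Z2 := (Int.castAddHom (ZMod 2)).toMultiplicative
  have h2 : be.comp ψ = red.comp χ' := by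
    apply HNNExtension.hom_ext
    · ext x
      simp only [MonoidHom.comp_apply, ψ, χ', HNNExtension.lift_of, be_jj, MonoidHom.one_apply,
        map_one]
    · simp only [MonoidHom.comp_apply, ψ, χ', HNNExtension.lift_t, map_mul, be_jj, mul_one]
      decide
  have hodd : red (χ' (e.symm τ)) ≠ 1 := by
    intro h0
    obtain ⟨k, hk⟩ := hZ (χ'.comp e.symm.toMonoidHom) (e HNNExtension.t)
    have hk' : χ' (e.symm τ) ^ k = χ' (e.symm (e HNNExtension.t)) := hk
    rw [e.symm_apply_apply] at hk'
    have := congrArg red hk'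
    rw [map_zpow, h0, one_zpow] at this
    simp only [χ', HNNExtension.lift_t] at this
    revert this
    decide
  apply noncomm (ψ (e.symm s)) (ψ (e.symm τ))
  · have := DFunLike.congr_fun h1 (e.symm s)
    simp only [MonoidHom.comp_apply] at this
    rw [this]
    show w (e (e.symm s)) ≠ 1
    rw [e.apply_symm_apply]; exact hs
  · have := DFunLike.congr_fun h1 (e.symm τ)
    simp only [MonoidHom.comp_apply] at this
    rw [this]
    show w (e (e.symm τ)) = 1
    rw [e.apply_symm_apply]; exact hτ
  · have := DFunLike.congr_fun h2 (e.symm τ)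
    simp only [MonoidHom.comp_apply] at this
    rw [this]; exact hodd
  · rw [← map_mul, ← map_mul, ← map_mul, ← map_mul, hc]

end Pool.Agent.H.MP_4681e4_al
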