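import Pool.Agent.H.MP_4681e4_al.A

namespace Pool.Agent.H.MP_4681e4_al

open Function

section amal

variable {H : Type} [Group H] (s : H)

def relSet : Set (Monoid.Coprod H (Multiplicative ℤ)) :=
  {(Monoid.Coprod.inl s)⁻¹ * (Monoid.Coprod.inr (Multiplicative.ofAdd 1)) ^ 2}

abbrev G1 := Monoid.Coprod H (Multiplicative ℤ) ⧸ Subgroup.normalClosure (relSet s)

def i1 : H →* G1 s := (QuotientGroup.mk' _).comp Monoid.Coprod.inl

def y1 : G1 s := QuotientGroup.mk' _ (Monoid.Coprod.inr (Multiplicative.ofAdd 1))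

theorem y1_sq : y1 s ^ 2 = i1 s s := by
  have : (QuotientGroup.mk' (Subgroup.normalClosure (relSet s)))
      ((Monoid.Coprod.inl s)⁻¹ * (Monoid.Coprod.inr (Multiplicative.ofAdd 1)) ^ 2) = 1 := by
    rw [QuotientGroup.mk'_apply, QuotientGroup.eq_one_iff]
    exact Subgroup.subset_normalClosure rfl
  rw [map_mul, map_inv, map_pow, inv_mul_eq_one] at this
  exact this.symm

theorem univ1 {K : Type} [Group K] (f : H →* K) (k : K) (hk : k ^ 2 = f s) :
    ∃ φ : G1 s →* K, (∀ h, φ (i1 s h) = f h) ∧ φ (y1 s) = k := by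
  let L : Monoid.Coprod H (Multiplicative ℤ) →* K := Monoid.Coprod.lift f (zpowersHom K k)
  have hL : Subgroup.normalClosure (relSet s) ≤ L.ker := by
    apply Subgroup.normalClosure_le_normal
    rintro x rfl
    simp [L, hk]
  refine ⟨QuotientGroup.lift _ L hL, fun h => ?_, ?_⟩
  · simp [i1, L]
  · simp [y1, L]

theorem gen1 (S : Subgroup (G1 s)) (h1 : ∀ h, i1 s h ∈ S) (h2 : y1 s ∈ S) : S = ⊤ := by
  rw [eq_top_iff]
  rintro x -
  obtain ⟨x, rfl⟩ := QuotientGroup.mk'_surjective _ x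
  induction x using Monoid.Coprod.induction_on with
  | inl m => exact h1 m
  | inr n =>
    have : n = (Multiplicative.ofAdd (1 : ℤ)) ^ (Multiplicative.toAdd n) := by
      simp [← ofAdd_zsmul]
    rw [this, map_zpow, map_zpow]
    exact S.zpow_mem h2 _
  | mul x y hx hy => rw [map_mul]; exact S.mul_mem hx hy

def actH : H →* Equiv.Perm (H × Bool) where
  toFun h := Equiv.prodCongr (Equiv.mulLeft h) (Equiv.refl _)
  map_one' := by ext x <;> simp
  map_mul' a b := by ext x <;> simp [mul_assoc]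

def actY : Equiv.Perm (H × Bool) where
  toFun p := cond p.2 (s * p.1, false) (p.1, true)
  invFun p := cond p.2 (p.1, false) (s⁻¹ * p.1, true)
  left_inv := by rintro ⟨a, _ | _⟩ <;> simp
  right_inv := by rintro ⟨a, _ | _⟩ <;> simp

theorem actY_sq : actY s ^ 2 = actH s := by
  rw [sq]
  ext ⟨a, _ | _⟩ <;> simp [actY, actH]

theorem i1_inj : Injective (i1 s) := by
  obtain ⟨φ, h1, -⟩ := univ1 s actH (actY s) (actY_sq s)
  intro a b hab
  have := congrArg φ hab
  rw [h1, h1] at this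
  have := congrArg (fun σ : Equiv.Perm (H × Bool) => (σ (1, true)).1) this
  simpa [actH] using this

theorem y1_not (h : H) : y1 s ≠ i1 s h := by
  obtain ⟨φ, h1, h2⟩ := univ1 s actH (actY s) (actY_sq s)
  intro e
  have := congrArg φ e
  rw [h1, h2] at this
  have := congrArg (fun σ : Equiv.Perm (H × Bool) => (σ (1, true)).2) this
  simp [actH, actY] at this

theorem fg1 (hH : Group.FG H) : Group.FG (G1 s) := by
  obtain ⟨S, hS, hfin⟩ := Group.fg_iff.mp hH
  rw [Group.fg_iff]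
  refine ⟨insert (y1 s) (i1 s '' S), ?_, (hfin.image _).insert _⟩
  apply gen1
  · intro h
    have : h ∈ Subgroup.closure S := by rw [hS]; trivial
    have h2 := Subgroup.mem_map_of_mem (i1 s) this
    rw [MonoidHom.map_closure] at h2
    exact Subgroup.closure_mono (Set.subset_insert _ _) h2
  · exact Subgroup.subset_closure (Set.mem_insert _ _)

theorem split1 (D : Subgroup H) (a : H) (ha : a * s * a⁻¹ ∈ D) :
    ∃ B : Subgroup (G1 s), IsAmalgam (i1 s).range B (D.map (i1 s)) ∧ D.map (i1 s) ≠ B := by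
  let z := i1 s a * y1 s * (i1 s a)⁻¹
  let B : Subgroup (G1 s) := Subgroup.closure (insert z (D.map (i1 s) : Set _))
  have hz : z ∈ B := Subgroup.subset_closure (Set.mem_insert _ _)
  have hB : D.map (i1 s) ≤ B := fun x hx => Subgroup.subset_closure (Set.mem_insert_of_mem _ hx)
  have hA : D.map (i1 s) ≤ (i1 s).range := Subgroup.map_le_range _ _
  refine ⟨B, amalgam_of_univ _ _ _ hA hB ?_ ?_, ?_⟩
  · apply gen1
    · intro h
      exact Subgroup.mem_sup_left ⟨h, rfl⟩
    · have : y1 s = (i1 s a)⁻¹ * z * i1 s a := by simp only [z]; group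
      rw [this]
      exact Subgroup.mul_mem _ (Subgroup.mul_mem _
        (Subgroup.inv_mem _ (Subgroup.mem_sup_left ⟨a, rfl⟩)) (Subgroup.mem_sup_right hz))
        (Subgroup.mem_sup_left ⟨a, rfl⟩)
  · intro K _ f g hfg
    let f' : H →* K := f.comp (i1 s).rangeRestrict
    have hz2 : z ^ 2 = i1 s (a * s * a⁻¹) := by
      simp only [z, conj_pow, y1_sq, map_mul, map_inv]
    obtain ⟨φ, h1, h2⟩ := univ1 s f' ((f' a)⁻¹ * g ⟨z, hz⟩ * f' a) (by
      have e1 : ((f' a)⁻¹ * g ⟨z, hz⟩ * f' a) ^ 2 = (f' a)⁻¹ * g ⟨z, hz⟩ ^ 2 * f' a := by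
        rw [sq, sq]; group
      have hm : i1 s (a * s * a⁻¹) ∈ D.map (i1 s) := Subgroup.mem_map_of_mem _ ha
      have e2 : g ⟨z, hz⟩ ^ 2 = f' (a * s * a⁻¹) := by
        rw [← map_pow]
        have := hfg _ hm
        have e3 : (⟨z, hz⟩ : B) ^ 2 = ⟨_, hB hm⟩ := Subtype.ext hz2
        rw [e3, ← this]
        rfl
      rw [e1, e2, map_mul, map_mul, map_inv]
      group)
    refine ⟨φ, ?_, ?_⟩
    · rintro ⟨_, h, rfl⟩
      exact h1 h
    · rintro ⟨b, hb⟩
      show φ b = g ⟨b, hb⟩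
      induction hb using Subgroup.closure_induction with
      | mem x hx =>
        rcases hx with rfl | ⟨d, hd, rfl⟩
        · have : φ z = f' a * ((f' a)⁻¹ * g ⟨z, hz⟩ * f' a) * (f' a)⁻¹ := by
            simp only [z, map_mul, map_inv, h1, h2]
          rw [this]
          show _ = g ⟨z, hz⟩
          generalize g ⟨z, hz⟩ = u
          group
        · rw [h1]
          exact hfg _ (Subgroup.mem_map_of_mem _ hd)
      | one => rw [map_one]; exact (map_one g).symm
      | mul x y hx hy ihx ihy => rw [map_mul, ihx, ihy, ← map_mul]; rfl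
      | inv x hx ih => rw [map_inv, ih, ← map_inv]; rfl
  · intro e
    rw [← e] at hz
    obtain ⟨d, -, hd⟩ := hz
    apply y1_not s (a⁻¹ * d * a)
    rw [map_mul, map_mul, map_inv, hd]
    simp only [z]
    group

theorem nosplit1 (w : H →* Z2) (hs : w s ≠ 1) (B C : Subgroup (G1 s))
    (hC : ∀ h, i1 s h ∈ C → w h = 1) : ¬ IsAmalgam (i1 s).range B C := by
  intro hA
  let e := MonoidHom.ofInjective (i1_inj s)
  obtain ⟨φ, hφ⟩ := univ_of_amalgam hA (w.comp e.symm.toMonoidHom) (by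
    rintro ⟨_, h, rfl⟩ hh
    have : e.symm ⟨i1 s h, h, rfl⟩ = h := by rw [MulEquiv.symm_apply_eq]; rfl
    show w (e.symm _) = 1
    rw [this]
    exact hC h hh)
  have h1 := hφ ⟨i1 s s, s, rfl⟩
  have : e.symm ⟨i1 s s, s, rfl⟩ = s := by rw [MulEquiv.symm_apply_eq]; rfl
  have h2 : φ (i1 s s) = w s := by
    rw [h1]
    show w (e.symm _) = _
    rw [this]
  rw [← y1_sq, map_pow] at h2
  apply hs
  rw [← h2]
  generalize φ (y1 s) = x
  revert x
  decide

end amal

section hnn

variable {H : Type} [Group H] (s : H)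

abbrev G2 := HNNExtension H (Subgroup.zpowers s) (Subgroup.zpowers s) (MulEquiv.refl _)

def i2 : H →* G2 s := HNNExtension.of

def t2 : G2 s := HNNExtension.t

theorem comm2 : i2 s s * t2 s = t2 s * i2 s s :=
  (HNNExtension.t_mul_of (φ := MulEquiv.refl (Subgroup.zpowers s))
    ⟨s, Subgroup.mem_zpowers s⟩).symm

theorem i2_inj : Injective (i2 s) := HNNExtension.of_injective _

theorem univ2 {K : Type} [Group K] (f : H →* K) (k : K) (hk : k * f s = f s * k) :
    ∃ φ : G2 s →* K, (∀ h, φ (i2 s h) = f h) ∧ φ (t2 s) = k := by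
  refine ⟨HNNExtension.lift f k ?_, fun h => HNNExtension.lift_of _ _ _ _,
    HNNExtension.lift_t _ _ _⟩
  rintro ⟨_, n, rfl⟩
  show k * f (s ^ n) = f (s ^ n) * k
  rw [map_zpow]
  exact (Commute.zpow_right hk n)

theorem gen2 (S : Subgroup (G2 s)) (h1 : ∀ h, i2 s h ∈ S) (h2 : t2 s ∈ S) : S = ⊤ := by
  rw [eq_top_iff]
  rintro x -
  induction x using HNNExtension.induction_on with
  | of g => exact h1 g
  | t => exact h2
  | mul x y hx hy => exact S.mul_mem hx hy
  | inv x hx => exact S.inv_mem hx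

theorem fg2 (hH : Group.FG H) : Group.FG (G2 s) := by
  obtain ⟨S, hS, hfin⟩ := Group.fg_iff.mp hH
  rw [Group.fg_iff]
  refine ⟨insert (t2 s) (i2 s '' S), ?_, (hfin.image _).insert _⟩
  apply gen2
  · intro h
    have : h ∈ Subgroup.closure S := by rw [hS]; trivial
    have h2 := Subgroup.mem_map_of_mem (i2 s) this
    rw [MonoidHom.map_closure] at h2
    exact Subgroup.closure_mono (Set.subset_insert _ _) h2
  · exact Subgroup.subset_closure (Set.mem_insert _ _)

theorem split2 (D : Subgroup H) (a : H) (ha : a * s * a⁻¹ ∈ D) : IsHNN (D.map (i2 s)) := by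
  let τ := i2 s a * t2 s * (i2 s a)⁻¹
  let B : Subgroup (G2 s) :=
    Subgroup.closure (Set.range (i2 s) ∪ {x | ∃ c ∈ D.map (i2 s), τ * c * τ⁻¹ = x})
  have hH : ∀ h, i2 s h ∈ B := fun h => Subgroup.subset_closure (Or.inl ⟨h, rfl⟩)
  have hB : D.map (i2 s) ≤ B := by
    rintro _ ⟨d, -, rfl⟩
    exact hH d
  have hτ : ∀ c ∈ D.map (i2 s), τ * c * τ⁻¹ ∈ B := fun c hc =>
    Subgroup.subset_closure (Or.inr ⟨c, hc, rfl⟩)
  refine hnn_of_univ B _ τ hB hτ ?_ ?_
  · apply gen2
    · intro h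
      exact Subgroup.mem_sup_left (hH h)
    · have : t2 s = (i2 s a)⁻¹ * τ * i2 s a := by simp only [τ]; group
      rw [this]
      exact Subgroup.mul_mem _ (Subgroup.mul_mem _
        (Subgroup.inv_mem _ (Subgroup.mem_sup_left (hH a)))
        (Subgroup.mem_sup_right (Subgroup.mem_zpowers τ))) (Subgroup.mem_sup_left (hH a))
  · intro K _ f k hk
    let f' : H →* K := f.comp ((i2 s).codRestrict B hH)
    have hm : i2 s (a * s * a⁻¹) ∈ D.map (i2 s) := Subgroup.mem_map_of_mem _ ha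
    have hfix : τ * i2 s (a * s * a⁻¹) * τ⁻¹ = i2 s (a * s * a⁻¹) := by
      rw [mul_inv_eq_iff_eq_mul]
      simp only [τ, map_mul, map_inv]
      have := comm2 s
      calc _ = i2 s a * (t2 s * i2 s s) * (i2 s a)⁻¹ := by group
        _ = i2 s a * (i2 s s * t2 s) * (i2 s a)⁻¹ := by rw [this]
        _ = _ := by group
    obtain ⟨φ, h1, h2⟩ := univ2 s f' ((f' a)⁻¹ * k * f' a) (by
      have e := hk _ hm
      have e2 : (⟨τ * i2 s (a * s * a⁻¹) * τ⁻¹, hτ _ hm⟩ : B) = ⟨_, hB hm⟩ := Subtype.ext hfix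
      rw [e2] at e
      have e3 : f ⟨_, hB hm⟩ = f' a * f' s * (f' a)⁻¹ := by
        rw [← map_inv, ← map_mul, ← map_mul]; rfl
      rw [e3] at e
      calc _ = (f' a)⁻¹ * (k * (f' a * f' s * (f' a)⁻¹)) * f' a := by group
        _ = (f' a)⁻¹ * ((f' a * f' s * (f' a)⁻¹) * k) * f' a := by rw [e]
        _ = _ := by group)
    have h3 : φ τ = k := by
      simp only [τ, map_mul, map_inv, h1, h2]
      group
    refine ⟨φ, ?_, h3⟩
    rintro ⟨b, hb⟩
    show φ b = f ⟨b, hb⟩
    induction hb using Subgroup.closure_induction with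
    | mem x hx =>
      rcases hx with ⟨h, rfl⟩ | ⟨_, ⟨d, hd, rfl⟩, rfl⟩
      · exact h1 h
      · have e := hk _ (Subgroup.mem_map_of_mem (i2 s) hd)
        rw [map_mul, map_mul, map_inv, h3, h1, mul_inv_eq_iff_eq_mul]
        exact e
    | one => rw [map_one]; exact (map_one f).symm
    | mul x y hx hy ihx ihy => rw [map_mul, ihx, ihy, ← map_mul]; rfl
    | inv x hx ih => rw [map_inv, ih, ← map_inv]; rfl

theorem nosplit2 (w : H →* Z2) (hs : w s ≠ 1) (hZ : ∀ χ : H →* Multiplicative ℤ, χ = 1)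
    (C : Subgroup (G2 s)) (hC' : C ≤ (i2 s).range)
    (hC : ∀ h, i2 s h ∈ C → w h = 1) : ¬ IsHNN C := by
  obtain ⟨w', h1, h2⟩ := univ2 s w 1 (by simp)
  apply not_hnn C w' (i2 s s) (t2 s) (by rw [h1]; exact hs) h2 (comm2 s)
  · intro c hc
    obtain ⟨h, rfl⟩ := hC' hc
    rw [h1]
    exact hC h hc
  · intro χ g
    have := gen2 s ((Subgroup.zpowers (χ (t2 s))).comap χ) (by
      intro h
      have := DFunLike.congr_fun (hZ (χ.comp (i2 s))) h
      simp only [MonoidHom.comp_apply, MonoidHom.one_apply] at this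
      rw [Subgroup.mem_comap, this]
      exact Subgroup.one_mem _) (Subgroup.mem_zpowers _)
    have hg : g ∈ (Subgroup.zpowers (χ (t2 s))).comap χ := by rw [this]; trivial
    exact hg

end hnn

theorem slender_map {H G : Type} [Group H] [Group G] (i : H →* G) (D : Subgroup H)
    (hD : Slender D) : Slender (D.map i) := by
  intro K hK
  have h1 : (K.comap i ⊓ D).map i = K := by
    apply le_antisymm
    · rintro _ ⟨x, hx, rfl⟩
      exact hx.1
    · intro k hk
      obtain ⟨d, hd, rfl⟩ := hK hk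
      exact ⟨d, ⟨hk, hd⟩, rfl⟩
  rw [← h1]
  obtain ⟨S, hS⟩ := hD _ (inf_le_right : K.comap i ⊓ D ≤ D)
  classical
  refine ⟨S.image i, ?_⟩
  rw [Finset.coe_image, ← MonoidHom.map_closure, hS]

end Pool.Agent.H.MP_4681e4_al
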