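import Pool.Agent.H.MP_4681e4_al.B

namespace Pool.Agent.H.MP_4681e4_al

open Function

/-- data for a counterexample -/
structure Data (H : Type) [Group H] where
  s : H
  w : H →* Z2
  D : ℕ → Subgroup H
  hs : w s ≠ 1
  fg : Group.FG H
  hZ : ∀ χ : H →* Multiplicative ℤ, χ = 1
  conj : ∀ n, ∃ a, a * s * a⁻¹ ∈ D n
  slender : ∀ n, Slender (D n)
  ne : ∀ n, D n ≠ ⊤

theorem chi_inv {H : Type} [Group H] (χ : H →* Multiplicative ℤ) (x : H) (hx : x * x = 1) :
    χ x = 1 := by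
  have := congrArg χ hx
  rw [map_mul, map_one] at this
  have h2 := congrArg Multiplicative.toAdd this
  rw [toAdd_mul, toAdd_one] at h2
  apply Multiplicative.toAdd.injective
  rw [toAdd_one]
  omega

section desc

open DihedralGroup

abbrev Dinf := DihedralGroup 0

def rr (i : ℤ) : Dinf := DihedralGroup.r i
def ss (i : ℤ) : Dinf := DihedralGroup.sr i

theorem rr_rr (i j : ℤ) : rr i * rr j = rr (i + j) := rfl
theorem rr_ss (i j : ℤ) : rr i * ss j = ss (j - i) := rfl
theorem ss_rr (i j : ℤ) : ss i * rr j = ss (i + j) := rfl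
theorem ss_ss (i j : ℤ) : ss i * ss j = rr (j - i) := rfl
theorem rr_inv (i : ℤ) : (rr i)⁻¹ = rr (-i) := rfl
theorem ss_inv (i : ℤ) : (ss i)⁻¹ = ss i := rfl
theorem rr_zero : rr 0 = 1 := rfl
theorem cases_D (x : Dinf) : (∃ i, x = rr i) ∨ ∃ i, x = ss i := by
  cases x with
  | r i => exact Or.inl ⟨i, rfl⟩
  | sr i => exact Or.inr ⟨i, rfl⟩
theorem rr_inj {i j : ℤ} (h : rr i = rr j) : i = j := DihedralGroup.r.inj h
theorem ss_inj {i j : ℤ} (h : ss i = ss j) : i = j := DihedralGroup.sr.inj h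
theorem rr_ne_ss (i j : ℤ) : rr i ≠ ss j := fun h => by cases h

def rHom : Multiplicative ℤ →* Dinf where
  toFun i := rr i.toAdd
  map_one' := rfl
  map_mul' _ _ := rfl

theorem rr_zpow (d k : ℤ) : rr d ^ k = rr (k * d) := by
  have : rr d = rHom (Multiplicative.ofAdd d) := rfl
  rw [this, ← map_zpow, ← ofAdd_zsmul]
  rfl

def wD : Dinf →* Z2 where
  toFun x := match x with
    | DihedralGroup.r _ => 1
    | DihedralGroup.sr _ => Multiplicative.ofAdd 1
  map_one' := rfl
  map_mul' x y := by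
    cases x <;> cases y
    · rfl
    · rfl
    · rfl
    · show (1 : Z2) = Multiplicative.ofAdd 1 * Multiplicative.ofAdd 1
      decide

theorem slender_D (K : Subgroup Dinf) : K.FG := by
  let K0 : AddSubgroup ℤ :=
    { carrier := {i | rr i ∈ K}
      add_mem' := fun {a b} ha hb => K.mul_mem ha hb
      zero_mem' := K.one_mem
      neg_mem' := fun {a} ha => K.inv_mem ha }
  obtain ⟨d, hd⟩ := Int.subgroup_cyclic K0
  have hd0 : rr d ∈ K := by
    have : d ∈ K0 := by rw [hd]; exact AddSubgroup.subset_closure rfl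
    exact this
  have hmul : ∀ i, rr i ∈ K → ∃ k : ℤ, rr i = rr d ^ k := by
    intro i hi
    have : i ∈ K0 := hi
    rw [hd, AddSubgroup.mem_closure_singleton] at this
    obtain ⟨k, rfl⟩ := this
    exact ⟨k, by rw [rr_zpow]; rfl⟩
  rw [Subgroup.fg_iff]
  by_cases h : ∃ j, ss j ∈ K
  · obtain ⟨j, hj⟩ := h
    refine ⟨{rr d, ss j}, ?_, Set.toFinite _⟩
    apply le_antisymm
    · rw [Subgroup.closure_le]
      rintro x (rfl | rfl) <;> assumption
    · have h1 : ∀ i, rr i ∈ K → rr i ∈ Subgroup.closure {rr d, ss j} := by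
        intro i hi
        obtain ⟨k, hk⟩ := hmul i hi
        rw [hk]
        exact Subgroup.zpow_mem _ (Subgroup.subset_closure (by simp)) _
      intro x hx
      rcases cases_D x with ⟨i, rfl⟩ | ⟨i, rfl⟩
      · exact h1 i hx
      · have : ss i = ss j * rr (i - j) := by rw [ss_rr]; congr 1; ring
        rw [this]
        refine Subgroup.mul_mem _ (Subgroup.subset_closure (by simp)) (h1 _ ?_)
        rw [← ss_ss]
        exact K.mul_mem hj hx
  · refine ⟨{rr d}, ?_, Set.toFinite _⟩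
    apply le_antisymm
    · rw [Subgroup.closure_le]
      rintro x rfl; assumption
    · intro x hx
      rcases cases_D x with ⟨i, rfl⟩ | ⟨i, rfl⟩
      · obtain ⟨k, hk⟩ := hmul i hx
        rw [hk]
        exact Subgroup.zpow_mem _ (Subgroup.subset_closure (by simp)) _
      · exact absurd ⟨i, hx⟩ h

def DD (n : ℕ) : Subgroup Dinf where
  carrier := {x | (∃ i, x = rr i ∧ (4 : ℤ) ^ (n + 1) ∣ i) ∨
    ∃ i, x = ss i ∧ (4 : ℤ) ^ (n + 1) ∣ 3 * i - 2}
  one_mem' := Or.inl ⟨0, rfl, dvd_zero _⟩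
  inv_mem' := by
    rintro _ (⟨i, rfl, hi⟩ | ⟨i, rfl, hi⟩)
    · exact Or.inl ⟨-i, rfl, hi.neg_right⟩
    · exact Or.inr ⟨i, rfl, hi⟩
  mul_mem' := by
    rintro _ _ (⟨i, rfl, hi⟩ | ⟨i, rfl, hi⟩) (⟨j, rfl, hj⟩ | ⟨j, rfl, hj⟩)
    · exact Or.inl ⟨i + j, rfl, hi.add hj⟩
    · refine Or.inr ⟨j - i, rfl, ?_⟩
      have := hj.sub (hi.mul_left 3)
      have e : 3 * (j - i) - 2 = 3 * j - 2 - 3 * i := by ring
      rw [e]; exact this
    · refine Or.inr ⟨i + j, rfl, ?_⟩
      have := hi.add (hj.mul_left 3)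
      have e : 3 * (i + j) - 2 = 3 * i - 2 + 3 * j := by ring
      rw [e]; exact this
    · refine Or.inl ⟨j - i, rfl, ?_⟩
      have h := hj.sub hi
      have e : 3 * j - 2 - (3 * i - 2) = 3 * (j - i) := by ring
      rw [e] at h
      have hc : IsCoprime ((4 : ℤ) ^ (n + 1)) 3 := by
        apply IsCoprime.pow_left
        exact ⟨1, -1, by norm_num⟩
      exact hc.dvd_of_dvd_mul_left h

theorem mem_rr {n : ℕ} {i : ℤ} : rr i ∈ DD n ↔ (4 : ℤ) ^ (n + 1) ∣ i := by
  constructor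
  · rintro (⟨j, h, hj⟩ | ⟨j, h, -⟩)
    · rw [rr_inj h]; exact hj
    · exact absurd h (rr_ne_ss _ _)
  · intro h
    exact Or.inl ⟨i, rfl, h⟩

theorem mem_ss {n : ℕ} {i : ℤ} : ss i ∈ DD n ↔ (4 : ℤ) ^ (n + 1) ∣ 3 * i - 2 := by
  constructor
  · rintro (⟨j, h, -⟩ | ⟨j, h, hj⟩)
    · exact absurd h.symm (rr_ne_ss _ _)
    · rw [ss_inj h]; exact hj
  · intro h
    exact Or.inr ⟨i, rfl, h⟩

theorem DD_lt (n : ℕ) : DD (n + 1) < DD n := by
  have hd : (4 : ℤ) ^ (n + 1) ∣ 4 ^ (n + 1 + 1) := pow_dvd_pow _ (by omega)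
  refine lt_of_le_of_ne ?_ ?_
  · intro x hx
    rcases cases_D x with ⟨i, rfl⟩ | ⟨i, rfl⟩
    · exact mem_rr.mpr (hd.trans (mem_rr.mp hx))
    · exact mem_ss.mpr (hd.trans (mem_ss.mp hx))
  · intro e
    have : rr (4 ^ (n + 1)) ∈ DD n := mem_rr.mpr dvd_rfl
    rw [← e, mem_rr] at this
    have h2 := Int.le_of_dvd (by positivity) this
    have h3 : (4 : ℤ) ^ (n + 1) < 4 ^ (n + 1 + 1) := pow_lt_pow_right₀ (by norm_num) (by omega)
    omega

theorem DD_inter (x : Dinf) (hx : ∀ n, x ∈ DD n) : wD x = 1 := by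
  rcases cases_D x with ⟨i, rfl⟩ | ⟨i, rfl⟩
  · rfl
  · exfalso
    have h := mem_ss.mp (hx (3 * i - 2).natAbs)
    have hne : 3 * i - 2 ≠ 0 := by omega
    have h2 := Int.natAbs_le_of_dvd_ne_zero h hne
    rw [Int.natAbs_pow] at h2
    have h3 : (3 * i - 2).natAbs + 1 < (4 : ℤ).natAbs ^ ((3 * i - 2).natAbs + 1) :=
      Nat.lt_pow_self (by norm_num)
    omega

def dataD : Data Dinf where
  s := ss 0
  w := wD
  D := DD
  hs := by
    show (Multiplicative.ofAdd 1 : Z2) ≠ 1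
    decide
  fg := Group.fg_def.mpr (slender_D ⊤)
  hZ := by
    intro χ
    have h1 : ∀ i, χ (ss i) = 1 := fun i => chi_inv χ _ (by rw [ss_ss, sub_self]; rfl)
    ext x
    rcases cases_D x with ⟨i, rfl⟩ | ⟨i, rfl⟩
    · have : rr i = ss 0 * ss i := by rw [ss_ss, sub_zero]
      rw [this, map_mul, h1, h1]; rfl
    · rw [h1]; rfl
  conj := by
    intro n
    have : (3 : ℤ) ∣ 4 ^ (n + 1) - 1 := by
      have := sub_dvd_pow_sub_pow (4 : ℤ) 1 (n + 1)
      simpa using this
    obtain ⟨j, hj⟩ := this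
    refine ⟨rr j, ?_⟩
    rw [rr_inv, rr_ss, ss_rr, mem_ss]
    exact ⟨-2, by linear_combination (2 : ℤ) * hj⟩
  slender := fun n K _ => slender_D K
  ne := by
    intro n e
    have : rr 1 ∈ DD n := by rw [e]; trivial
    rw [mem_rr] at this
    have h2 := Int.le_of_dvd (by positivity) this
    have h3 : (1 : ℤ) < 4 ^ (n + 1) := one_lt_pow₀ (by norm_num) (by omega)
    omega

end desc

section asc

def gens : Set (Equiv.Perm ℤ) := {Equiv.swap 0 1, Equiv.neg ℤ, Equiv.subLeft 1}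

def H0 : Subgroup (Equiv.Perm ℤ) := Subgroup.closure gens

theorem swap_mem (m : ℕ) : Equiv.swap (m : ℤ) (m + 1) ∈ H0 := by
  induction m with
  | zero => exact Subgroup.subset_closure (by simp [gens])
  | succ m ih =>
    let u : Equiv.Perm ℤ := Equiv.subLeft 1 * Equiv.neg ℤ
    have hu : u ∈ H0 := H0.mul_mem (Subgroup.subset_closure (by simp [gens]))
      (Subgroup.subset_closure (by simp [gens]))
    have h1 : u m = ((m + 1 : ℕ) : ℤ) := by simp [u]; ring
    have h2 : u (m + 1) = ((m + 1 : ℕ) : ℤ) + 1 := by simp [u]; ring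
    rw [← h2, ← h1, Equiv.swap_apply_apply]
    exact H0.mul_mem (H0.mul_mem hu ih) (H0.inv_mem hu)

def EE (n : ℕ) : Subgroup H0 where
  carrier := {σ | ∀ x : ℤ, x ∉ Finset.Ico (0 : ℤ) (2 * n) → σ.1 x = x}
  one_mem' := fun _ _ => rfl
  mul_mem' := by
    intro a b ha hb x hx
    show a.1 (b.1 x) = x
    rw [hb x hx, ha x hx]
  inv_mem' := by
    intro a ha x hx
    show a.1⁻¹ x = x
    rw [Equiv.Perm.inv_eq_iff_eq, ha x hx]

theorem EE_fin (n : ℕ) : Finite (EE n) := by
  have hm : ∀ (σ : EE n) (x : Finset.Ico (0 : ℤ) (2 * n)),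
      σ.1.1 x ∈ Finset.Ico (0 : ℤ) (2 * n) := by
    intro σ x
    by_contra h
    have := σ.1.1.injective (σ.2 _ h)
    rw [this] at h
    exact h x.2
  apply Finite.of_injective
    (fun (σ : EE n) (x : Finset.Ico (0 : ℤ) (2 * n)) => (⟨_, hm σ x⟩ : Finset.Ico (0 : ℤ) (2 * n)))
  intro a b hab
  apply Subtype.ext; apply Subtype.ext
  ext x
  by_cases hx : x ∈ Finset.Ico (0 : ℤ) (2 * n)
  · exact congrArg Subtype.val (congrFun hab ⟨x, hx⟩)
  · rw [a.2 x hx, b.2 x hx]

abbrev HA := H0 × Z2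

def DA (n : ℕ) : Subgroup HA := (EE n).prod ⊤

theorem DA_lt (n : ℕ) : DA n < DA (n + 1) := by
  refine lt_of_le_of_ne ?_ ?_
  · rintro ⟨a, b⟩ ⟨ha, -⟩
    refine ⟨fun x hx => ha x ?_, trivial⟩
    simp only [Finset.mem_Ico] at hx ⊢
    push_cast at hx
    omega
  · intro e
    have : ((⟨_, swap_mem (2 * n)⟩, 1) : HA) ∈ DA (n + 1) := by
      refine ⟨fun x hx => ?_, trivial⟩
      simp only [Finset.mem_Ico] at hx
      push_cast at hx
      apply Equiv.swap_apply_of_ne_of_ne <;> push_cast <;> omega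
    rw [← e] at this
    have h2 := this.1 (2 * n) (by simp)
    simp at h2

theorem DA_zero (x : HA) (hx : x ∈ DA 0) : x.1 = 1 := by
  apply Subtype.ext
  ext y
  exact hx.1 y (by simp)

theorem fgH0 : Group.FG H0 := by
  rw [Group.fg_iff_subgroup_fg, Subgroup.fg_iff]
  exact ⟨gens, rfl, by unfold gens; exact Set.toFinite _⟩

def dataA : Data HA where
  s := (1, Multiplicative.ofAdd 1)
  w := MonoidHom.snd _ _
  D := DA
  hs := by
    show (Multiplicative.ofAdd 1 : Z2) ≠ 1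
    decide
  fg := by
    have := fgH0
    infer_instance
  hZ := by
    intro χ
    have h1 : ∀ x (hx : x ∈ H0), χ (⟨x, hx⟩, 1) = 1 := by
      intro x hx
      induction hx using Subgroup.closure_induction with
      | mem x hx =>
        apply chi_inv
        apply Prod.ext
        · apply Subtype.ext
          rcases hx with rfl | rfl | rfl
          · exact Equiv.swap_mul_self _ _
          · ext y; simp
          · ext y; simp
        · rfl
      | one => exact map_one χ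
      | mul x y hx hy ihx ihy =>
        have : ((⟨x * y, H0.mul_mem hx hy⟩, 1) : HA) = (⟨x, hx⟩, 1) * (⟨y, hy⟩, 1) := rfl
        rw [this, map_mul, ihx, ihy, mul_one]
      | inv x hx ih =>
        have : ((⟨x⁻¹, H0.inv_mem hx⟩, 1) : HA) = (⟨x, hx⟩, 1)⁻¹ :=
          Prod.ext rfl inv_one.symm
        rw [this, map_inv, ih, inv_one]
    have h2 : ∀ z : Z2, χ (1, z) = 1 := by
      intro z
      apply chi_inv
      apply Prod.ext
      · exact mul_one _
      · show z * z = 1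
        revert z; decide
    apply MonoidHom.ext
    rintro ⟨⟨x, hx⟩, z⟩
    have : ((⟨x, hx⟩, z) : HA) = (⟨x, hx⟩, 1) * (1, z) := by simp
    rw [this, map_mul, h1, h2]; rfl
  conj := fun n => ⟨1, by
    rw [one_mul, inv_one, mul_one]
    exact ⟨(EE n).one_mem, trivial⟩⟩
  slender := by
    intro n K hK
    have := EE_fin n
    have : Finite (DA n) := Finite.of_equiv _ (Subgroup.prodEquiv (EE n) ⊤).symm.toEquiv
    have : Finite K := Finite.of_injective _ (Subgroup.inclusion_injective hK)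
    exact (Group.fg_iff_subgroup_fg K).mp inferInstance
  ne := fun n e => by
    have := DA_lt n
    rw [e] at this
    exact not_top_lt this

theorem asc_key {G : Type} [Group G] (i : HA →* G) (hi : Injective i) (C : Subgroup G)
    (hC : C < (DA 0).map i) (h : HA) (hh : i h ∈ C) : h.2 = 1 := by
  by_contra hne
  apply hC.not_ge
  rintro _ ⟨d, hd, rfl⟩
  obtain ⟨h', hh', e⟩ := hC.le hh
  have e' := hi e
  subst e'
  have h1 := DA_zero _ hd
  have h2 := DA_zero _ hh'
  have : d = 1 ∨ d = h' := by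
    have h3 : ∀ a b : Z2, b ≠ 1 → a = 1 ∨ a = b := by decide
    rcases h3 d.2 h'.2 hne with h4 | h4
    · exact Or.inl (Prod.ext h1 h4)
    · exact Or.inr (Prod.ext (h1.trans h2.symm) h4)
  rcases this with rfl | rfl
  · rw [map_one]; exact C.one_mem
  · exact hh

end asc

end Pool.Agent.H.MP_4681e4_al
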